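import Mathlib

/-!
# Functions on the branches at infinity of a plane curve

If all branches `y_i` of a polynomial `P(1/t, Y)` whose leading coefficient is a nonzero
constant are given and a polynomial `f(1/t, Y)` takes a power series value on every branch,
then each of these values is a constant.
-/

open Polynomial

namespace Pool.Agent.Helper67.A09

/-- the variable `t⁻¹` of the field of Laurent series -/
noncomputable abbrev tinv : LaurentSeries ℚ := HahnSeries.single (-1 : ℤ) (1 : ℚ)

/-- the coefficient of `t^(-j)` of `c(1/t)` is the `j`-th coefficient of `c` -/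
theorem coeff_aeval_tinv (c : ℚ[X]) (j : ℕ) :
    (aeval tinv c : LaurentSeries ℚ).coeff (-(j : ℤ)) = c.coeff j := by
  induction c using Polynomial.induction_on' with
  | add p q hp hq => simp [hp, hq]
  | monomial n a =>
    rw [aeval_monomial]
    have h1 : (tinv ^ n : LaurentSeries ℚ) = HahnSeries.single (-(n : ℤ)) (1 : ℚ) := by
      rw [tinv, HahnSeries.single_pow]
      simp
    have h0 : algebraMap ℚ (LaurentSeries ℚ) a = HahnSeries.single (0 : ℤ) a := by
      have h3 : algebraMap ℚ (LaurentSeries ℚ) = (HahnSeries.C : ℚ →+* LaurentSeries ℚ) :=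
        Subsingleton.elim _ _
      rw [h3]
      rfl
    rw [h0, h1, HahnSeries.single_mul_single, coeff_monomial]
    by_cases h : n = j
    · subst h
      simp
    · have h' : (-(j : ℤ)) ≠ 0 + -(n : ℤ) := by
        intro h3
        apply h
        omega
      rw [HahnSeries.coeff_single_of_ne h', if_neg h]

theorem coeff_coe_neg (s : PowerSeries ℚ) (j : ℕ) (hj : 0 < j) :
    (s : LaurentSeries ℚ).coeff (-(j : ℤ)) = 0 := by
  rw [PowerSeries.coeff_coe]
  rw [if_pos]
  omega

theorem poly_const (c : ℚ[X]) (s : PowerSeries ℚ)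
    (h : (aeval tinv c : LaurentSeries ℚ) = (s : LaurentSeries ℚ)) :
    c = C (c.coeff 0) := by
  ext j
  rcases Nat.eq_zero_or_pos j with rfl | hj
  · simp
  · rw [coeff_C, if_neg (by omega), ← coeff_aeval_tinv, h, coeff_coe_neg _ _ hj]

/-- a power series algebraic over the constants is constant -/
theorem ps_const (χ : ℚ[X]) (hχ : χ ≠ 0) (h : PowerSeries ℚ)
    (h0 : aeval h χ = 0) : h = PowerSeries.C (PowerSeries.constantCoeff h) := by
  set a : ℚ := PowerSeries.constantCoeff h with ha
  obtain ⟨ρ, hρ, hnd⟩ := exists_eq_pow_rootMultiplicity_mul_and_not_dvd χ hχ a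
  rw [hρ, map_mul, map_pow] at h0
  have h1 : (aeval h ρ : PowerSeries ℚ) ≠ 0 := by
    intro h2
    apply hnd
    rw [dvd_iff_isRoot, IsRoot.def]
    have h3 := congrArg (PowerSeries.constantCoeff (R := ℚ)) h2
    rw [map_zero, aeval_def, hom_eval₂] at h3
    rw [← ha] at h3
    have h4 : (PowerSeries.constantCoeff (R := ℚ)).comp (algebraMap ℚ (PowerSeries ℚ)) =
        RingHom.id ℚ := Subsingleton.elim _ _
    rw [h4, eval₂_id] at h3
    exact h3
  rcases mul_eq_zero.1 h0 with h2 | h2
  · have h4 : (aeval h (X - C a) : PowerSeries ℚ) = 0 := by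
      exact eq_zero_of_pow_eq_zero h2
    rw [map_sub, aeval_X, aeval_C, sub_eq_zero] at h4
    rw [h4]
    rfl
  · exact absurd h2 h1

theorem const_of_branches {N : ℕ} (P : ℚ[X][X]) (hdeg : P.natDegree = N)
    (hlead : ∃ κ : ℚ, κ ≠ 0 ∧ P.leadingCoeff = C κ)
    (y : Fin N → LaurentSeries ℚ) (hy : Function.Injective y)
    (hroot : ∀ i, eval₂ (aeval tinv : ℚ[X] →ₐ[ℚ] LaurentSeries ℚ).toRingHom (y i) P = 0)
    (f : ℚ[X][X]) (hf : ∀ i, ∃ h : PowerSeries ℚ,
      eval₂ (aeval tinv : ℚ[X] →ₐ[ℚ] LaurentSeries ℚ).toRingHom (y i) f = (h : LaurentSeries ℚ)) :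
    ∀ i, ∃ q : ℚ, eval₂ (aeval tinv : ℚ[X] →ₐ[ℚ] LaurentSeries ℚ).toRingHom (y i) f =
      algebraMap ℚ (LaurentSeries ℚ) q := by
  classical
  obtain ⟨κ, hκ, hlc⟩ := hlead
  choose h hh using hf
  set φ : ℚ[X] →+* LaurentSeries ℚ := (aeval tinv : ℚ[X] →ₐ[ℚ] LaurentSeries ℚ).toRingHom with hφ
  have hφC : ∀ a : ℚ, φ (C a) = algebraMap ℚ (LaurentSeries ℚ) a := by
    intro a
    rw [hφ]
    simp
  set k : LaurentSeries ℚ := algebraMap ℚ (LaurentSeries ℚ) κ with hk
  have hk0 : k ≠ 0 := by
    rw [hk]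
    exact (_root_.map_ne_zero _).2 hκ
  -- the factorisation of `P` over the Laurent series
  have hlcQ : φ P.leadingCoeff ≠ 0 := by
    rw [hlc, hφC]
    exact hk0
  have hdegQ : (P.map φ).natDegree = N := by
    rw [natDegree_map_of_leadingCoeff_ne_zero _ hlcQ, hdeg]
  have hlcQ' : (P.map φ).leadingCoeff = k := by
    rw [leadingCoeff_map_of_leadingCoeff_ne_zero _ hlcQ, hlc, hφC]
  have hQ0 : P.map φ ≠ 0 := by
    intro h0
    rw [h0, leadingCoeff_zero] at hlcQ'
    exact hk0 hlcQ'.symm
  have hfac : P.map φ = C k * ∏ i, (X - C (y i)) := by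
    have hle : (Finset.univ.val.map y) ≤ (P.map φ).roots := by
      rw [Multiset.le_iff_subset]
      · intro z hz
        obtain ⟨i, -, rfl⟩ := Multiset.mem_map.1 hz
        rw [mem_roots hQ0, IsRoot.def, eval_map]
        exact hroot i
      · exact Multiset.Nodup.map hy Finset.univ.nodup
    have hcard : Multiset.card (Finset.univ.val.map y) = N := by
      simp
    have heq : (Finset.univ.val.map y) = (P.map φ).roots := by
      apply Multiset.eq_of_le_of_card_le hle
      rw [hcard]
      calc Multiset.card (P.map φ).roots ≤ (P.map φ).natDegree := card_roots' _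
        _ = N := hdegQ
    have h1 := C_leadingCoeff_mul_prod_multiset_X_sub_C (p := P.map φ)
      (by rw [← heq, hcard, hdegQ])
    rw [← h1, hlcQ', ← heq, Multiset.map_map]
    rfl
  -- the resultant
  set n : ℕ := f.natDegree with hn
  set χ : ℚ[X][X] := resultant (P.map (C : ℚ[X] →+* ℚ[X][X]))
    (C (X : ℚ[X][X]) - f.map (C : ℚ[X] →+* ℚ[X][X])) N n with hχ
  have hχmap : χ.map φ = C (k ^ n) * ∏ i, (X - C (eval₂ φ (y i) f)) := by
    have h1 : χ.map φ = mapRingHom φ χ := rfl
    rw [h1, hχ, ← resultant_map_map]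
    have h2 : (P.map (C : ℚ[X] →+* ℚ[X][X])).map (mapRingHom φ) =
        C (C k) * ∏ i, (X - C (C (y i))) := by
      have h3 : (P.map (C : ℚ[X] →+* ℚ[X][X])).map (mapRingHom φ) =
          (P.map φ).map (C : LaurentSeries ℚ →+* (LaurentSeries ℚ)[X]) := by
        rw [map_map, map_map]
        congr 1
        ext a
        · simp
        · simp
      rw [h3, hfac, Polynomial.map_mul, Polynomial.map_prod]
      simp
    have h4 : (C (X : ℚ[X][X]) - f.map (C : ℚ[X] →+* ℚ[X][X])).map (mapRingHom φ) =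
        C (X : (LaurentSeries ℚ)[X]) - (f.map φ).map C := by
      rw [Polynomial.map_sub, map_C, map_map, map_map]
      congr 1
      · simp
      · congr 1
        ext a
        · simp
        · simp
    have h5 : (C (X : (LaurentSeries ℚ)[X]) - (f.map φ).map C).natDegree ≤ n := by
      refine (natDegree_sub_le _ _).trans ?_
      rw [natDegree_C]
      refine max_le (Nat.zero_le _) ?_
      exact natDegree_map_le.trans natDegree_map_le
    have h6 : (∏ i : Fin N, (X - C (C (y i))) : (LaurentSeries ℚ)[X][X]).natDegree = N := by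
      rw [natDegree_prod_of_monic _ _ (fun i _ => monic_X_sub_C _)]
      simp
    rw [h2, h4, resultant_C_mul_left]
    have h7 := resultant_prod_left (Finset.univ : Finset (Fin N))
      (fun i => (X - C (C (y i)) : (LaurentSeries ℚ)[X][X]))
      (C (X : (LaurentSeries ℚ)[X]) - (f.map φ).map C) n (by simp) h5
    simp only [h6] at h7
    rw [h7, C_pow]
    congr 1
    apply Finset.prod_congr rfl
    intro i _
    rw [natDegree_X_sub_C, resultant_X_sub_C_left _ _ _ h5]
    rw [eval_sub, eval_C, eval_map, eval₂_at_apply, eval_map]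
  -- the coefficients of `χ` are constants
  have hcoef : ∀ m, ∃ s : PowerSeries ℚ, φ (χ.coeff m) = (s : LaurentSeries ℚ) := by
    intro m
    have h1 : χ.map φ = (C ((PowerSeries.C κ : PowerSeries ℚ) ^ n) *
        ∏ i, (X - C (h i)) : (PowerSeries ℚ)[X]).map (HahnSeries.ofPowerSeries ℤ ℚ) := by
      rw [hχmap, Polynomial.map_mul, Polynomial.map_prod, map_C, map_pow]
      congr 1
      · have h3 : (HahnSeries.ofPowerSeries ℤ ℚ).comp (PowerSeries.C (R := ℚ)) =
          algebraMap ℚ (LaurentSeries ℚ) := Subsingleton.elim _ _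
        rw [hk, ← h3, map_pow (HahnSeries.ofPowerSeries ℤ ℚ), ← map_pow]
        rfl
      · apply Finset.prod_congr rfl
        intro i _
        rw [Polynomial.map_sub, map_X, map_C, hh i]
    refine ⟨(C ((PowerSeries.C κ : PowerSeries ℚ) ^ n) *
        ∏ i, (X - C (h i)) : (PowerSeries ℚ)[X]).coeff m, ?_⟩
    rw [← coeff_map, h1, coeff_map]
  have hconst : ∀ m, χ.coeff m = C ((χ.coeff m).coeff 0) := by
    intro m
    obtain ⟨s, hs⟩ := hcoef m
    exact poly_const _ s hs
  set χ₀ : ℚ[X] := χ.map (evalRingHom (0 : ℚ)) with hχ₀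
  have hχ₀map : χ.map φ = χ₀.map (algebraMap ℚ (LaurentSeries ℚ)) := by
    ext1 m
    rw [coeff_map, coeff_map, hχ₀, coeff_map, hconst m, hφC]
    simp
  have hχ₀ne : χ₀ ≠ 0 := by
    intro h0
    rw [h0, Polynomial.map_zero, hχmap] at hχ₀map
    have h1 : (∏ i, (X - C (eval₂ φ (y i) f))).Monic := monic_prod_X_sub_C _ _
    rcases mul_eq_zero.1 hχ₀map with h2 | h2
    · rw [C_eq_zero] at h2
      exact pow_ne_zero _ hk0 h2
    · exact h1.ne_zero h2
  intro i
  refine ⟨PowerSeries.constantCoeff (h i), ?_⟩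
  have h1 : aeval (h i) χ₀ = 0 := by
    have h2 : HahnSeries.ofPowerSeries ℤ ℚ (aeval (h i) χ₀) = 0 := by
      rw [aeval_def, hom_eval₂]
      have h3 : (HahnSeries.ofPowerSeries ℤ ℚ).comp (algebraMap ℚ (PowerSeries ℚ)) =
        algebraMap ℚ (LaurentSeries ℚ) := Subsingleton.elim _ _
      rw [h3, ← eval_map, ← hχ₀map, hχmap, eval_mul, eval_prod]
      rw [Finset.prod_eq_zero (Finset.mem_univ i)]
      · simp
      · rw [← hh i]
        simp
    exact (map_eq_zero_iff _ HahnSeries.ofPowerSeries_injective).1 h2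
  have h2 := ps_const χ₀ hχ₀ne (h i) h1
  rw [hh i]
  have h3 : (HahnSeries.ofPowerSeries ℤ ℚ).comp (PowerSeries.C (R := ℚ)) =
        algebraMap ℚ (LaurentSeries ℚ) := Subsingleton.elim _ _
  conv_lhs => rw [h2]
  rw [← h3]
  rfl

end Pool.Agent.Helper67.A09
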