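import Mathlib
import Pool.Agent.Helper11.CDim
import Pool.Agent.Helper11.HUnr

/-! Normal form of the symbols of units of a line arrangement curve. -/

namespace Pool.Agent.Helper11

open Finset

variable {N : ℕ} {α : Fin N → Fin 2 → ℤ} {β : Fin N → ℤ} {c : ℤ}

/-- a rational constant as a unit of `K` -/
noncomputable def cst (K : Type) [Field K] [CharZero K] (q : ℚˣ) : Kˣ :=
  Units.map (algebraMap ℚ K : ℚ →* K) q

section sy

variable {K : Type} [Field K]

/-- the symbol of two units -/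
noncomputable def sy (u v : Kˣ) : KMQ K 2 := symM ![u, v]

lemma upd_zero (a b u : Kˣ) : Function.update ![a, b] 0 u = ![u, b] := by
  funext m
  fin_cases m <;> simp

lemma upd_one (a b u : Kˣ) : Function.update ![a, b] 1 u = ![a, u] := by
  funext m
  fin_cases m <;> simp

lemma sy_mul_left (u v w : Kˣ) : sy (u * v) w = sy u w + sy v w := by
  have h := symM_update_mul ![u, w] 0 u v
  simp only [upd_zero] at h
  exact h

lemma sy_mul_right (w u v : Kˣ) : sy w (u * v) = sy w u + sy w v := by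
  have h := symM_update_mul ![w, u] 1 u v
  simp only [upd_one] at h
  exact h

lemma sy_anti (u v : Kˣ) : sy u v = - sy v u := by
  have h := symM_swap ![u, v] (i := 0) (j := 1) (by decide) u v
  simp only [upd_zero, upd_one] at h
  exact h

lemma sy_self (u : Kˣ) : sy u u = 0 :=
  symM_pair_self ![u, u] (i := 0) (j := 1) (by decide) rfl

lemma sy_isC {u v : Kˣ} (hu : IsC u) (hv : IsC v) : sy u v = 0 :=
  symM_isC ![u, v] (i := 0) (j := 1) (by decide) hu hv

lemma sy_steinberg {u v : Kˣ} (h : (u : K) + v = 1) : sy u v = 0 :=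
  symM_steinberg ![u, v] (i := 0) (j := 1) (by decide) h

lemma sy_one_right (u : Kˣ) : sy u 1 = 0 := by
  have h := sy_mul_right u 1 1
  rw [mul_one] at h
  exact left_eq_add.1 h

/-- additivity in the second argument -/
noncomputable def syR (u : Kˣ) : Additive Kˣ →+ KMQ K 2 where
  toFun v := sy u v.toMul
  map_zero' := sy_one_right u
  map_add' v w := sy_mul_right u v.toMul w.toMul

lemma syR_apply (u v : Kˣ) : syR u (Additive.ofMul v) = sy u v := rfl

lemma sy_inv_right (u v : Kˣ) : sy u v⁻¹ = - sy u v := by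
  rw [← syR_apply, ofMul_inv, map_neg, syR_apply]

lemma sy_div_right (u v w : Kˣ) : sy u (v / w) = sy u v - sy u w := by
  rw [← syR_apply, ofMul_div, map_sub, syR_apply, syR_apply]

lemma sy_zpow_right (u v : Kˣ) (n : ℤ) : sy u (v ^ n) = (n : ℚ) • sy u v := by
  rw [← syR_apply, ofMul_zpow, map_zsmul, syR_apply, Int.cast_smul_eq_zsmul]

lemma sy_prod_right {ι : Type*} (u : Kˣ) (s : Finset ι) (f : ι → Kˣ) :
    sy u (∏ i ∈ s, f i) = ∑ i ∈ s, sy u (f i) := by
  rw [← syR_apply, ofMul_prod, map_sum]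
  rfl

lemma sy_div_left (u v w : Kˣ) : sy (v / w) u = sy v u - sy w u := by
  rw [sy_anti, sy_div_right, sy_anti u v, sy_anti u w]
  abel

lemma sy_zpow_left (u v : Kˣ) (n : ℤ) : sy (v ^ n) u = (n : ℚ) • sy v u := by
  rw [sy_anti, sy_zpow_right, sy_anti u v, smul_neg, neg_neg]

lemma sy_prod_left {ι : Type*} (u : Kˣ) (s : Finset ι) (f : ι → Kˣ) :
    sy (∏ i ∈ s, f i) u = ∑ i ∈ s, sy (f i) u := by
  rw [sy_anti, sy_prod_right, ← Finset.sum_neg_distrib]
  exact Finset.sum_congr rfl fun i _ => (sy_anti _ _).symm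

variable [CharZero K]

lemma cst_val (q : ℚˣ) : (cst K q : K) = ((q : ℚ) : K) := by
  unfold cst
  rw [Units.coe_map]
  exact eq_ratCast (algebraMap ℚ K) _

lemma cst_mul (q q' : ℚˣ) : cst K (q * q') = cst K q * cst K q' := by
  unfold cst
  rw [map_mul]

lemma cst_zpow (q : ℚˣ) (n : ℤ) : cst K (q ^ n) = cst K q ^ n := by
  unfold cst
  rw [map_zpow]

lemma cst_inv (q : ℚˣ) : cst K q⁻¹ = (cst K q)⁻¹ := by
  unfold cst
  rw [map_inv]

lemma cst_one : cst K 1 = 1 := by
  unfold cst
  rw [map_one]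

lemma isC_cst (q : ℚˣ) : IsC (cst K q) := by
  have hn : ((q : ℚ).num : K) ≠ 0 := by
    rw [Int.cast_ne_zero]
    exact Rat.num_ne_zero.2 q.ne_zero
  have hd : (((q : ℚ).den : ℤ) : K) ≠ 0 := by
    rw [Int.cast_ne_zero]
    exact_mod_cast (q : ℚ).den_nz
  refine ⟨Units.mk0 _ hn, Units.mk0 _ hd, (q : ℚ).num, ((q : ℚ).den : ℤ), rfl, rfl, ?_⟩
  ext
  rw [cst_val, Units.val_div_eq_div_val, Units.val_mk0, Units.val_mk0]
  rw [Rat.cast_def]
  simp

lemma eq_cst_of_int {u : Kˣ} {a : ℤ} (h : (u : K) = a) : ∃ q : ℚˣ, u = cst K q := by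
  have ha : (a : ℚ) ≠ 0 := by
    intro h0
    have h1 : a = 0 := by exact_mod_cast h0
    rw [h1, Int.cast_zero] at h
    exact u.ne_zero h
  refine ⟨Units.mk0 _ ha, ?_⟩
  ext
  rw [cst_val, Units.val_mk0, h, Rat.cast_intCast]

/-- the combinations of the symbols of a constant and a linear form -/
noncomputable def Wc (L : Fin N → Kˣ) : Submodule ℚ (KMQ K 2) :=
  Submodule.span ℚ {v | ∃ (q : ℚˣ) (i : Fin N), v = sy (cst K q) (L i)}

variable {L : Fin N → Kˣ}

lemma left_mem (q : ℚˣ) (i : Fin N) : sy (cst K q) (L i) ∈ Wc L :=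
  Submodule.subset_span ⟨q, i, rfl⟩

lemma right_mem (q : ℚˣ) (i : Fin N) : sy (L i) (cst K q) ∈ Wc L := by
  rw [sy_anti]
  exact Submodule.neg_mem _ (left_mem q i)

lemma Wc_normal {v : KMQ K 2} (hv : v ∈ Wc L) :
    ∃ M : ℕ, M ≠ 0 ∧ ∃ q : Fin N → ℚˣ, (M : ℚ) • v = ∑ i, sy (cst K (q i)) (L i) := by
  classical
  unfold Wc at hv
  induction hv using Submodule.span_induction with
  | mem v hv =>
    obtain ⟨q, i, rfl⟩ := hv
    refine ⟨1, one_ne_zero, Function.update 1 i q, ?_⟩
    rw [Nat.cast_one, one_smul, Finset.sum_eq_single i]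
    · rw [Function.update_self]
    · intro j _ hj
      rw [Function.update_of_ne hj, Pi.one_apply, cst_one, sy_anti, sy_one_right, neg_zero]
    · intro h
      exact absurd (Finset.mem_univ i) h
  | zero =>
    refine ⟨1, one_ne_zero, 1, ?_⟩
    rw [smul_zero, Finset.sum_eq_zero]
    intro i _
    rw [Pi.one_apply, cst_one, sy_anti, sy_one_right, neg_zero]
  | add v w _ _ h1 h2 =>
    obtain ⟨M, hM, q, h1⟩ := h1
    obtain ⟨M', hM', q', h2⟩ := h2
    refine ⟨M * M', Nat.mul_ne_zero hM hM', fun i => q i ^ (M' : ℤ) * q' i ^ (M : ℤ), ?_⟩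
    have e1 : ((M * M' : ℕ) : ℚ) • (v + w) = (M' : ℚ) • ((M : ℚ) • v) + (M : ℚ) • ((M' : ℚ) • w) := by
      rw [smul_smul, smul_smul, smul_add]
      push_cast
      rw [mul_comm (M' : ℚ) (M : ℚ)]
    rw [e1, h1, h2, Finset.smul_sum, Finset.smul_sum, ← Finset.sum_add_distrib]
    refine Finset.sum_congr rfl fun i _ => ?_
    rw [cst_mul, cst_zpow, cst_zpow, sy_mul_left, sy_zpow_left, sy_zpow_left]
    push_cast
    rfl
  | smul r v _ h1 =>
    obtain ⟨M, hM, q, h1⟩ := h1
    refine ⟨r.den * M, Nat.mul_ne_zero r.den_nz hM, fun i => q i ^ r.num, ?_⟩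
    have e1 : ((r.den * M : ℕ) : ℚ) • (r • v) = (r.num : ℚ) • ((M : ℚ) • v) := by
      rw [smul_smul, smul_smul]
      congr 1
      push_cast
      have h2 := Rat.den_mul_eq_num r
      calc (r.den : ℚ) * M * r = ((r.den : ℚ) * r) * M := by ring
        _ = r.num * M := by rw [h2]
    rw [e1, h1, Finset.smul_sum]
    refine Finset.sum_congr rfl fun i _ => ?_
    rw [cst_zpow, sy_zpow_left]

end sy

section cyc

/-- membership in `hypCycles` for plane arrangements -/
lemma mem_cyc {y : Fin N → Fin N → ℚ} (hanti : ∀ a b, y a b = - y b a)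
    (hpar : ∀ a b, hypDet α ![a, b] = 0 → y a b = 0) (hrow : ∀ a, ∑ b, y a b = 0) :
    (fun J => y (J 0) (J 1)) ∈ hypCycles (n := 1) α := by
  refine ⟨?_, ?_, ?_⟩
  · intro J i j hij
    have : (J ∘ Equiv.swap i j) 0 = J 1 ∧ (J ∘ Equiv.swap i j) 1 = J 0 := by
      fin_cases i <;> fin_cases j
      · exact absurd rfl hij
      · simp
      · simp [Equiv.swap_comm]
      · exact absurd rfl hij
    simp only [this.1, this.2]
    exact hanti _ _
  · intro J hJ
    rw [← pair_eta J] at hJ
    exact hpar _ _ hJ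
  · intro J m
    fin_cases m
    · simp only [Fin.zero_eta, Fin.isValue, Function.update_self, ne_eq, one_ne_zero,
        not_false_eq_true, Function.update_of_ne]
      have h2 : ∑ k, y k (J 1) = - ∑ k, y (J 1) k := by
        rw [← Finset.sum_neg_distrib]
        exact Finset.sum_congr rfl fun k _ => hanti _ _
      rw [h2, hrow, neg_zero]
    · simp only [Fin.mk_one, Fin.isValue, Function.update_self, ne_eq, zero_ne_one,
        not_false_eq_true, Function.update_of_ne]
      exact hrow _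

/-- sums over pairs -/
lemma sum_pairs {V : Type*} [AddCommMonoid V] (f : (Fin 2 → Fin N) → V) :
    ∑ J, f J = ∑ a, ∑ b, f ![a, b] := by
  rw [← Fintype.sum_prod_type' (fun a b => f ![a, b])]
  refine Fintype.sum_equiv (finTwoArrowEquiv _) _ _ fun J => ?_
  have h : f J = f ![J 0, J 1] := by rw [pair_eta]
  exact h

end cyc

section main

variable {K : Type} [Field K] [CharZero K] {L : Fin N → Kˣ} {D : (Fin 2 → Fin N) → Kˣ}

/-- `cycleClass` as a linear map -/
noncomputable def ccLin (L : Fin N → Kˣ) (D : (Fin 2 → Fin N) → Kˣ) :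
    ((Fin 2 → Fin N) → ℚ) →ₗ[ℚ] KMQ K 2 where
  toFun z := cycleClass (n := 1) L D z
  map_add' z w := by
    unfold cycleClass
    simp only [Pi.add_apply, add_smul]
    rw [Finset.sum_add_distrib]
  map_smul' r z := by
    unfold cycleClass
    simp only [Pi.smul_apply, smul_eq_mul, mul_smul, RingHom.id_apply]
    rw [Finset.smul_sum]

/-- modulo `Wc`, the class of a cycle is the combination of the symbols `{L_a, L_b}` -/
lemma ccLin_sub_mem (hD : ∀ J, hypDet α J ≠ 0 → (D J : K) = hypDet α J)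
    {y : Fin N → Fin N → ℚ} (hpar : ∀ a b, hypDet α ![a, b] = 0 → y a b = 0) :
    ccLin L D (fun J => y (J 0) (J 1)) - ∑ a, ∑ b, y a b • sy (L a) (L b) ∈ Wc L := by
  have h1 : ccLin L D (fun J => y (J 0) (J 1)) =
      ∑ a, ∑ b, y a b • symM (fun m => L ((![a, b] : Fin 2 → Fin N) m) / D ![a, b]) := by
    have h2 : ccLin L D (fun J => y (J 0) (J 1)) =
      ∑ J : Fin 2 → Fin N, y (J 0) (J 1) • symM (fun m => L (J m) / D J) := rfl
    rw [h2, sum_pairs]
    rfl
  rw [h1, ← Finset.sum_sub_distrib]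
  refine Submodule.sum_mem _ fun a _ => ?_
  rw [← Finset.sum_sub_distrib]
  refine Submodule.sum_mem _ fun b _ => ?_
  by_cases hdet : hypDet α ![a, b] = 0
  · rw [hpar a b hdet, zero_smul, zero_smul, sub_zero]
    exact Submodule.zero_mem _
  · rw [← smul_sub]
    apply Submodule.smul_mem
    obtain ⟨q, hq⟩ := eq_cst_of_int (hD ![a, b] hdet)
    have h3 : (fun m => L ((![a, b] : Fin 2 → Fin N) m) / D ![a, b]) =
        ![L a / D ![a, b], L b / D ![a, b]] := by
      funext m
      fin_cases m <;> rfl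
    have h4 : symM ![L a / D ![a, b], L b / D ![a, b]] =
        sy (L a / D ![a, b]) (L b / D ![a, b]) := rfl
    rw [h3, h4, sy_div_left, sy_div_right, sy_div_right, sy_self, hq]
    have h5 : sy (L a) (L b) - sy (L a) (cst K q) - (sy (cst K q) (L b) - 0) - sy (L a) (L b) =
        - sy (L a) (cst K q) - sy (cst K q) (L b) := by
      abel
    rw [h5]
    exact Submodule.sub_mem _ (Submodule.neg_mem _ (right_mem q a)) (left_mem q b)

variable (hrk : ∀ i, ∃ j, hypDet α ![i, j] ≠ 0)
  (hgp : ∀ (J : Fin 2 → Fin N) k, hypDet α J ≠ 0 → (∀ m, J m ≠ k) → hypVal α β J k ≠ 0)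
  {x : Fin 2 → K} (hL : ∀ i, (L i : K) = α i 0 * x 0 + α i 1 * x 1 + β i)

include hrk hgp hL in
/-- the symbol of two parallel forms -/
lemma par_mem {i j : Fin N} (hdet : hypDet α ![i, j] = 0) : sy (L i) (L j) ∈ Wc L := by
  by_cases hij : j = i
  · subst hij
    rw [sy_self]
    exact Submodule.zero_mem _
  · obtain ⟨k, hk⟩ := hrk i
    have hjk : j ≠ k := by
      rintro rfl
      exact hk hdet
    have hv := hgp ![i, k] j hk (by
      intro m
      fin_cases m
      · exact Ne.symm hij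
      · exact hjk.symm)
    have hjk2 : hypDet α ![j, k] ≠ 0 := by
      intro h0
      exact hk (dt_trans hrk hdet h0)
    have h1 := hyp_affine (n := 1) α β x ![i, k] j
    rw [Fin.sum_univ_two, Fin.sum_univ_two] at h1
    have e1 : Function.update (![i, k] : Fin 2 → Fin N) 0 j = ![j, k] := by
      funext m
      fin_cases m <;> simp
    have e2 : Function.update (![i, k] : Fin 2 → Fin N) 1 j = ![i, j] := by
      funext m
      fin_cases m <;> simp
    rw [e1, e2, hdet, Int.cast_zero, zero_mul, add_zero, Fin.sum_univ_two] at h1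
    simp only [Matrix.cons_val_zero] at h1
    rw [← hL j, ← hL i] at h1
    -- the two constants
    set v : ℤ := hypVal α β ![i, k] j with hvdef
    have hvq : (v : ℚ) ≠ 0 := by exact_mod_cast hv
    have ha : ((hypDet α ![i, k] : ℤ) : ℚ) / v ≠ 0 :=
      div_ne_zero (by exact_mod_cast hk) hvq
    have hb : - (((hypDet α ![j, k] : ℤ) : ℚ) / v) ≠ 0 :=
      neg_ne_zero.2 (div_ne_zero (by exact_mod_cast hjk2) hvq)
    set a : ℚˣ := Units.mk0 _ ha with hadef
    set b : ℚˣ := Units.mk0 _ hb with hbdef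
    have hvK : (v : K) ≠ 0 := by exact_mod_cast hv
    have h2 : ((cst K a * L j : Kˣ) : K) + ((cst K b * L i : Kˣ) : K) = 1 := by
      rw [Units.val_mul, Units.val_mul, cst_val, cst_val, hadef, hbdef, Units.val_mk0,
        Units.val_mk0]
      push_cast
      field_simp
      linear_combination h1
    have h3 := sy_steinberg h2
    rw [sy_mul_left, sy_mul_right, sy_mul_right, sy_isC (isC_cst a) (isC_cst b), zero_add] at h3
    have h4 : sy (L i) (L j) = sy (cst K a) (L i) + sy (L j) (cst K b) := by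
      rw [sy_anti (L i) (L j)]
      have h5 : sy (L j) (L i) = -(sy (cst K a) (L i) + sy (L j) (cst K b)) := by
        rw [eq_neg_iff_add_eq_zero, ← h3]
        abel
      rw [h5, neg_neg]
    rw [h4]
    exact Submodule.add_mem _ (left_mem a i) (right_mem b j)

include hrk hgp hL in
/-- the symbol of two forms -/
lemma pair_mem (hN : 0 < N) (hc : c ≠ 0) (hrel : (c : K) * ∏ i, (L i : K) = 1)
    (hD : ∀ J, hypDet α J ≠ 0 → (D J : K) = hypDet α J) (i j : Fin N) :
    sy (L i) (L j) ∈ Submodule.map (ccLin L D) (hypCycles (n := 1) α) ⊔ Wc L := by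
  classical
  by_cases hdet : hypDet α ![i, j] = 0
  · exact Submodule.mem_sup_right (par_mem hrk hgp hL hdet)
  have hij : i ≠ j := by
    rintro rfl
    exact hdet (dt_self i)
  -- the product of the forms is a constant
  have hcq : (c : ℚ) ≠ 0 := by exact_mod_cast hc
  obtain ⟨q0, hq0⟩ : ∃ q : ℚˣ, ∏ a, L a = cst K q := by
    refine ⟨(Units.mk0 _ hcq)⁻¹, ?_⟩
    rw [cst_inv, eq_inv_iff_mul_eq_one]
    ext
    rw [Units.val_mul, cst_val, Units.val_mk0, Units.val_one, Units.coe_prod, mul_comm,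
      Rat.cast_intCast]
    exact hrel
  -- the Laplace equation
  obtain ⟨t, ht⟩ := lap_solve (F := ℚ) hrk hN
    (s := fun a => (if a = j then 1 else 0) - (if a = i then 1 else 0)) (by
      rw [Finset.sum_sub_distrib]
      simp)
  set y : Fin N → Fin N → ℚ := fun a b =>
    (if a = i ∧ b = j then 1 else 0) - (if a = j ∧ b = i then 1 else 0) +
      (if hypDet α ![a, b] ≠ 0 then t a - t b else 0) with hy
  have hanti : ∀ a b, y a b = - y b a := by
    intro a b
    rw [hy]
    simp only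
    have e1 : (if hypDet α ![b, a] ≠ 0 then t b - t a else 0) =
        - (if hypDet α ![a, b] ≠ 0 then t a - t b else 0) := by
      by_cases h : hypDet α ![a, b] ≠ 0
      · rw [if_pos h, if_pos (dt_ne_symm h)]
        ring
      · rw [if_neg h, if_neg fun h' => h (dt_ne_symm h'), neg_zero]
    rw [e1]
    have e2 : (if b = i ∧ a = j then (1 : ℚ) else 0) = if a = j ∧ b = i then 1 else 0 := by
      simp only [and_comm]
    have e3 : (if b = j ∧ a = i then (1 : ℚ) else 0) = if a = i ∧ b = j then 1 else 0 := by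
      simp only [and_comm]
    rw [e2, e3]
    ring
  have hpar : ∀ a b, hypDet α ![a, b] = 0 → y a b = 0 := by
    intro a b h
    have h1 : ¬ (a = i ∧ b = j) := by
      rintro ⟨rfl, rfl⟩
      exact hdet h
    have h2 : ¬ (a = j ∧ b = i) := by
      rintro ⟨rfl, rfl⟩
      apply hdet
      rw [dt_swap, h, neg_zero]
    rw [hy]
    simp only
    rw [if_neg h1, if_neg h2, if_neg (not_not.2 h)]
    ring
  have hrow : ∀ a, ∑ b, y a b = 0 := by
    intro a
    have h1 := congrFun ht a
    rw [lap_apply, Finset.sum_filter] at h1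
    rw [hy]
    simp only
    rw [Finset.sum_add_distrib, Finset.sum_sub_distrib, h1]
    have e1 : ∑ b, (if a = i ∧ b = j then (1 : ℚ) else 0) = if a = i then 1 else 0 := by
      by_cases h : a = i
      · simp [h]
      · simp [h]
    have e2 : ∑ b, (if a = j ∧ b = i then (1 : ℚ) else 0) = if a = j then 1 else 0 := by
      by_cases h : a = j
      · simp [h]
      · simp [h]
    rw [e1, e2]
    ring
  have hz := mem_cyc hanti hpar hrow
  have hcc := ccLin_sub_mem (L := L) hD hpar
  -- the correction term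
  have hX : ∑ a, ∑ b, (if hypDet α ![a, b] ≠ 0 then t a - t b else 0) • sy (L a) (L b) ∈
      Wc L := by
    have hall : ∑ a, ∑ b, (t a - t b) • sy (L a) (L b) ∈ Wc L := by
      have e1 : ∑ a, ∑ b, (t a - t b) • sy (L a) (L b) =
          ∑ a, (2 * t a) • sy (L a) (∏ b, L b) := by
        have e2 : ∑ a, ∑ b, (t a - t b) • sy (L a) (L b) =
            ∑ a, ∑ b, t a • sy (L a) (L b) - ∑ a, ∑ b, t b • sy (L a) (L b) := by
          rw [← Finset.sum_sub_distrib]
          refine Finset.sum_congr rfl fun a _ => ?_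
          rw [← Finset.sum_sub_distrib]
          exact Finset.sum_congr rfl fun b _ => sub_smul _ _ _
        have e3 : ∑ a, ∑ b, t b • sy (L a) (L b) = - ∑ a, ∑ b, t a • sy (L a) (L b) := by
          rw [Finset.sum_comm, ← Finset.sum_neg_distrib]
          refine Finset.sum_congr rfl fun a _ => ?_
          rw [← Finset.sum_neg_distrib]
          refine Finset.sum_congr rfl fun b _ => ?_
          rw [sy_anti (L b) (L a), smul_neg]
        rw [e2, e3, sub_neg_eq_add, ← Finset.sum_add_distrib]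
        refine Finset.sum_congr rfl fun a _ => ?_
        rw [← Finset.smul_sum, ← sy_prod_right, ← add_smul]
        congr 1
        ring
      rw [e1]
      refine Submodule.sum_mem _ fun a _ => Submodule.smul_mem _ _ ?_
      rw [hq0]
      exact right_mem q0 a
    have hpm : ∑ a, ∑ b, (if hypDet α ![a, b] = 0 then t a - t b else 0) • sy (L a) (L b) ∈
        Wc L := by
      refine Submodule.sum_mem _ fun a _ => Submodule.sum_mem _ fun b _ => ?_
      by_cases h : hypDet α ![a, b] = 0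
      · exact Submodule.smul_mem _ _ (par_mem hrk hgp hL h)
      · rw [if_neg h, zero_smul]
        exact Submodule.zero_mem _
    have e4 : ∑ a, ∑ b, (if hypDet α ![a, b] ≠ 0 then t a - t b else 0) • sy (L a) (L b) =
        ∑ a, ∑ b, (t a - t b) • sy (L a) (L b) -
        ∑ a, ∑ b, (if hypDet α ![a, b] = 0 then t a - t b else 0) • sy (L a) (L b) := by
      rw [← Finset.sum_sub_distrib]
      refine Finset.sum_congr rfl fun a _ => ?_
      rw [← Finset.sum_sub_distrib]
      refine Finset.sum_congr rfl fun b _ => ?_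
      by_cases h : hypDet α ![a, b] = 0
      · rw [if_pos h, if_neg (not_not.2 h), zero_smul, sub_self]
      · rw [if_neg h, if_pos h, zero_smul, sub_zero]
    rw [e4]
    exact Submodule.sub_mem _ hall hpm
  have hsum : ∑ a, ∑ b, y a b • sy (L a) (L b) = (2 : ℚ) • sy (L i) (L j) +
      ∑ a, ∑ b, (if hypDet α ![a, b] ≠ 0 then t a - t b else 0) • sy (L a) (L b) := by
    rw [hy]
    simp only [add_smul, sub_smul, Finset.sum_add_distrib, Finset.sum_sub_distrib]
    congr 1
    have e1 : ∀ p q : Fin N, ∑ a, ∑ b, (if a = p ∧ b = q then (1 : ℚ) else 0) • sy (L a) (L b) =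
        sy (L p) (L q) := by
      intro p q
      rw [Finset.sum_eq_single p]
      · rw [Finset.sum_eq_single q]
        · simp
        · intro b _ hb
          simp [hb]
        · intro h
          exact absurd (Finset.mem_univ _) h
      · intro a _ ha
        refine Finset.sum_eq_zero fun b _ => ?_
        simp [ha]
      · intro h
        exact absurd (Finset.mem_univ _) h
    rw [e1, e1, sy_anti (L j) (L i), sub_neg_eq_add, two_smul]
  -- conclusion
  have h2 : (2 : ℚ) • sy (L i) (L j) ∈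
      Submodule.map (ccLin L D) (hypCycles (n := 1) α) ⊔ Wc L := by
    have h3 : (2 : ℚ) • sy (L i) (L j) = ccLin L D (fun J => y (J 0) (J 1)) -
        (ccLin L D (fun J => y (J 0) (J 1)) - ∑ a, ∑ b, y a b • sy (L a) (L b)) -
        ∑ a, ∑ b, (if hypDet α ![a, b] ≠ 0 then t a - t b else 0) • sy (L a) (L b) := by
      rw [hsum]
      abel
    rw [h3]
    exact Submodule.sub_mem _ (Submodule.sub_mem _
      (Submodule.mem_sup_left (Submodule.mem_map_of_mem hz)) (Submodule.mem_sup_right hcc))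
      (Submodule.mem_sup_right hX)
  have h4 := Submodule.smul_mem _ (1 / 2 : ℚ) h2
  rw [smul_smul] at h4
  norm_num at h4
  exact h4

end main

theorem gen_normal_form (hrk : ∀ i, ∃ j, hypDet α ![i, j] ≠ 0) (hN : 0 < N) (hc : c ≠ 0)
    (hgp : ∀ (J : Fin 2 → Fin N) k, hypDet α J ≠ 0 → (∀ m, J m ≠ k) → hypVal α β J k ≠ 0)
    {K : Type} [Field K] [CharZero K] (x : Fin 2 → K) (L : Fin N → Kˣ)
    (hL : ∀ i, (L i : K) = α i 0 * x 0 + α i 1 * x 1 + β i) (hrel : (c : K) * ∏ i, (L i : K) = 1)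
    (D : (Fin 2 → Fin N) → Kˣ) (hD : ∀ J, hypDet α J ≠ 0 → (D J : K) = hypDet α J)
    (U : Subgroup Kˣ) (hU : ∀ f ∈ U, ∃ M : ℕ, M ≠ 0 ∧ ∃ (q : ℚˣ) (e : Fin N → ℤ),
      f ^ M = cst K q * ∏ i, L i ^ e i)
    {w : KMQ K 2} (hw : w ∈ Submodule.span ℚ {z | ∃ f : Fin 2 → Kˣ, (∀ i, f i ∈ U) ∧ z = symM f}) :
    ∃ M : ℕ, M ≠ 0 ∧ ∃ z ∈ hypCycles (n := 1) α, ∃ q : Fin N → ℚˣ,
      (M : ℚ) • w = cycleClass (n := 1) L D z + ∑ i, symM ![cst K (q i), L i] := by
  set T : Submodule ℚ (KMQ K 2) := Submodule.map (ccLin L D) (hypCycles (n := 1) α) ⊔ Wc L with hT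
  have hpair : ∀ i j, sy (L i) (L j) ∈ T := pair_mem hrk hgp hL hN hc hrel hD
  have hle : Submodule.span ℚ {z | ∃ f : Fin 2 → Kˣ, (∀ i, f i ∈ U) ∧ z = symM f} ≤ T := by
    rw [Submodule.span_le]
    rintro _ ⟨f, hf, rfl⟩
    obtain ⟨M, hM, q, e, h1⟩ := hU (f 0) (hf 0)
    obtain ⟨M', hM', q', e', h2⟩ := hU (f 1) (hf 1)
    have hf2 : f = ![f 0, f 1] := by
      funext m
      fin_cases m <;> rfl
    have h3 : symM f = sy (f 0) (f 1) := by
      conv_lhs => rw [hf2]
      rfl
    have h4 : ((M : ℚ) * M') • sy (f 0) (f 1) ∈ T := by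
      have h5 : ((M : ℚ) * M') • sy (f 0) (f 1) = sy (f 0 ^ M) (f 1 ^ M') := by
        have e1 := sy_zpow_left (f 1 ^ M') (f 0) M
        have e2 := sy_zpow_right (f 0) (f 1) M'
        rw [zpow_natCast, Int.cast_natCast] at e1 e2
        rw [e1, e2, smul_smul]
      rw [h5, h1, h2, sy_mul_left, sy_mul_right, sy_mul_right, sy_isC (isC_cst q) (isC_cst q'),
        zero_add, sy_prod_right, sy_prod_left, sy_prod_left]
      refine Submodule.add_mem _ (Submodule.sum_mem _ fun i _ => ?_) (Submodule.add_mem _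
        (Submodule.sum_mem _ fun i _ => ?_) (Submodule.sum_mem _ fun i _ => ?_))
      · rw [sy_zpow_right]
        exact Submodule.smul_mem _ _ (Submodule.mem_sup_right (left_mem q i))
      · rw [sy_zpow_left]
        exact Submodule.smul_mem _ _ (Submodule.mem_sup_right (right_mem q' i))
      · rw [sy_zpow_left, sy_prod_right]
        refine Submodule.smul_mem _ _ (Submodule.sum_mem _ fun j _ => ?_)
        rw [sy_zpow_right]
        exact Submodule.smul_mem _ _ (hpair i j)
    have h6 := Submodule.smul_mem _ (((M : ℚ) * M')⁻¹) h4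
    rw [smul_smul, inv_mul_cancel₀ (mul_ne_zero (Nat.cast_ne_zero.2 hM) (Nat.cast_ne_zero.2 hM')),
      one_smul] at h6
    rw [SetLike.mem_coe, h3]
    exact h6
  obtain ⟨u, hu, v, hv, huv⟩ := Submodule.mem_sup.1 (hle hw)
  obtain ⟨z, hz, rfl⟩ := Submodule.mem_map.1 hu
  obtain ⟨M, hM, q, h1⟩ := Wc_normal hv
  refine ⟨M, hM, (M : ℚ) • z, Submodule.smul_mem _ _ hz, q, ?_⟩
  have h2 : cycleClass (n := 1) L D ((M : ℚ) • z) = (M : ℚ) • ccLin L D z :=
    map_smul (ccLin L D) (M : ℚ) z
  rw [h2, ← huv, smul_add, h1]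
  rfl

end Pool.Agent.Helper11
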